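import Mathlib

set_option autoImplicit false

namespace Pool.Agent.Results.MP_30c7ca_gt.Involution

open Set Topology Filter Metric Function

/-- `X` is the Fraisse limit of the finite metric spaces with rational distances. -/
def IsRationalUrysohn (X : Type) [MetricSpace X] : Prop :=
  Countable X ∧ (∀ x y : X, ∃ q : ℚ, dist x y = q) ∧
    (∀ (F : Type) [MetricSpace F] [Finite F], (∀ x y : F, ∃ q : ℚ, dist x y = q) →
      ∃ e : F → X, Isometry e) ∧
    ∀ (s : Set X), s.Finite → ∀ φ : s → X, Isometry φ → ∃ ψ : X ≃ᵢ X, ∀ x : s, ψ x = φ x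

theorem ext {X : Type} [MetricSpace X] (h : IsRationalUrysohn X) {n : ℕ} (a : Fin n → X)
    (r : Fin n → ℝ) (q : ∀ i, ∃ q : ℚ, r i = q) (k : ∀ i j, r i ≤ r j + dist (a i) (a j))
    (l : ∀ i j, dist (a i) (a j) ≤ r i + r j) : ∃ x, ∀ i, dist x (a i) = r i := by
  let κ : X → Fin n → ℝ := fun x j => dist x (a j)
  have r0 : ∀ i, 0 ≤ r i := fun i => by have := l i i; simp at this; linarith
  have c : ∀ i x, dist (κ x) (κ (a i)) = dist x (a i) := fun i x =>
    ((dist_pi_le_iff dist_nonneg).2 fun j => abs_dist_sub_le _ _ _).antisymm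
      (by simpa [κ] using dist_le_pi_dist (κ x) (κ (a i)) i)
  have d : ∀ i, dist r (κ (a i)) = r i := fun i => ((dist_pi_le_iff (r0 i)).2 fun j => abs_le.2
    ⟨by linarith [l i j], by linarith [k j i, dist_comm (a i) (a j)]⟩).antisymm
      (by simpa [κ, Real.dist_eq, abs_of_nonneg (r0 i)] using dist_le_pi_dist r (κ (a i)) i)
  have := ((finite_range fun i => κ (a i)).insert r).to_subtype
  obtain ⟨e, he⟩ := h.2.2.1 (insert r (range fun i => κ (a i)) : Set _) (by
    rintro ⟨_, rfl | ⟨i, rfl⟩⟩ ⟨_, rfl | ⟨j, rfl⟩⟩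
    exacts [⟨0, by simp⟩, (d j).symm ▸ q j, (dist_comm _ _).trans (d i) ▸ q i,
      (c j (a i)).symm ▸ h.2.1 _ _])
  obtain ⟨ψ, p⟩ := h.2.2.2 _ (finite_range a)
    (fun x => e ⟨κ x, .inr (x.2.imp fun _ h => congrArg κ h)⟩) (.of_dist_eq <| by
      rintro x ⟨_, i, rfl⟩
      exact (he.dist_eq _ _).trans (c i x))
  exact ⟨ψ.symm (e ⟨r, .inl rfl⟩), fun i => by
    rw [← ψ.dist_eq, ψ.apply_symm_apply, p ⟨_, i, rfl⟩, he.dist_eq]
    exact d i⟩

theorem result (X : Type) [MetricSpace X] (h : IsRationalUrysohn X) (σ : X ≃ᵢ X)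
    (c : ∀ x y, ∃! n : ℤ, (σ ^ n) x = y) (U : Type) [MetricSpace U] [CompleteSpace U]
    (ι : X → U) (i : Isometry ι) (d : DenseRange ι) (τ : U ≃ᵢ U) (e : ∀ x, τ (ι x) = ι (σ x)) :
    ∃ g : U ≃ᵢ U, (g : U → U) ∈ closure (range fun n : ℤ => ((τ ^ n : U ≃ᵢ U) : U → U)) ∧
      g ≠ 1 ∧ g ^ 2 = 1 := by
  obtain ⟨o, -⟩ := ext h (n := 0) ![] ![] (by simp) (by simp) (by simp)
  let N : ℤ → ℝ := fun n => dist ((σ ^ n) o) o
  have s : ∀ x (m n : ℤ), dist ((σ ^ m) x) ((σ ^ n) x) = N (m - n) := fun x m n => by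
    obtain ⟨k, rfl, -⟩ := c o x
    simp only [N, ← (σ ^ (n + k)).dist_eq _ o, ← IsometryEquiv.mul_apply, ← zpow_add]
    congr 3
    ring
  have n1 : ∀ m, N (-m) = N m := fun m => by
    simpa [dist_comm, N] using (s o 0 m).symm
  have n2 : ∀ m n, N (m + n) ≤ N m + N n := fun m n => by
    simpa only [s, sub_neg_eq_add, sub_zero, zero_add] using
      dist_triangle ((σ ^ m) o) ((σ ^ (0 : ℤ)) o) ((σ ^ (-n)) o)
  have n3 : ∀ m, ∃ q : ℚ, N m = q := fun m => h.2.1 _ _
  have x : ∀ {n : ℕ} (a : Fin n → ℤ) (r : Fin n → ℝ), (∀ i, ∃ q : ℚ, r i = q) →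
      (∀ i j, r i ≤ r j + N (a i - a j)) → (∀ i j, N (a i - a j) ≤ r i + r j) →
      ∃ t, ∀ i, N (t - a i) = r i := fun a r q k l => by
    obtain ⟨x, p⟩ := ext h (fun i => (σ ^ a i) o) r q (by simpa [s]) (by simpa [s])
    obtain ⟨t, rfl, -⟩ := c o x
    exact ⟨t, by simpa [s] using p⟩
  have n0 : N 0 = 0 := by simp [N]
  have n4 : ∀ m, 0 ≤ N m := fun _ => dist_nonneg
  have st : ∀ y (δ : ℚ), 0 < δ → ∃ w, N (w + w) ≤ δ ∧ N (w - y) ≤ N (y + y) / 2 + δ := by
    intro y δ p
    replace p : (0 : ℝ) < δ := by exact_mod_cast p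
    have : ∀ j : ℕ, ∃ w, N (w + w) ≤ δ ∧ (max (N (w - y)) (N (w + y)) ≤ N (y + y) / 2 + δ ∨
        max (N (w - y)) (N (w + y)) ≤ N y - j * (δ / 2)) := fun j => by
      induction' j with j k
      · exact ⟨0, by simp [n0, p.le], .inr (by simp [n1])⟩
      obtain ⟨w, a, k⟩ := k
      rcases le_total _ (N (y + y) / 2 + δ) with b | b
      · exact ⟨w, a, .inl b⟩
      obtain ⟨m, f⟩ : ∃ m : ℚ, max (N (w - y)) (N (w + y)) = m := by
        rcases max_choice (N (w - y)) (N (w + y)) with f | f <;> exact f.symm ▸ n3 _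
      have u := n2 (-(w + y)) (w + w)
      have v := n2 (-(w - y)) (w + w)
      have t : ∀ i j, N (![w, -w, y, -y] i - ![w, -w, y, -y] j) =
          ![![0, N (w + w), N (w - y), N (w + y)], ![N (w + w), 0, N (w + y), N (w - y)],
            ![N (w - y), N (w + y), 0, N (y + y)], ![N (w + y), N (w - y), N (y + y), 0]] i j := by
        intro i j
        fin_cases i <;> fin_cases j <;> simp [n0] <;>
          first | (congr 1; ring1) | (rw [← n1]; congr 1; ring1)
      rw [n1, show -(w + y) + (w + w) = w - y by ring] at u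
      rw [n1, show -(w - y) + (w + w) = w + y by ring] at v
      have := n4 (w + w)
      have := n4 (y + y)
      obtain ⟨z, l⟩ := x ![w, -w, y, -y] ![δ / 2, δ / 2, m - δ / 2, m - δ / 2] (fun i => by
        fin_cases i
        exacts [⟨δ / 2, by simp⟩, ⟨δ / 2, by simp⟩, ⟨m - δ / 2, by simp⟩, ⟨m - δ / 2, by simp⟩])
        (fun i j => by
          rw [t, ← f]
          rcases max_cases (N (w - y)) (N (w + y)) with g | g <;> fin_cases i <;> fin_cases j <;>
            simp only [Fin.reduceFinMk, Matrix.cons_val] <;> linarith) fun i j => by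
          rw [t, ← f]
          rcases max_cases (N (w - y)) (N (w + y)) with g | g <;> fin_cases i <;> fin_cases j <;>
            simp only [Fin.reduceFinMk, Matrix.cons_val] <;> linarith
      have := n2 (z - w) (z - -w)
      rw [show z - w + (z - -w) = z + z by ring, show N (z - w) = δ / 2 from l 0,
        show N (z - -w) = δ / 2 from l 1] at this
      refine ⟨z, by linarith, ?_⟩
      rw [← sub_neg_eq_add z y, show N (z - y) = m - δ / 2 from l 2,
        show N (z - -y) = m - δ / 2 from l 3, max_self]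
      exact k.imp (fun _ => by linarith) fun _ => by push_cast; linarith
    obtain ⟨j, k⟩ := exists_nat_gt (N y / (δ / 2))
    obtain ⟨w, a, b⟩ := this j
    exact ⟨w, a, (le_max_left _ _).trans (b.resolve_right fun b => by
      linarith [(div_lt_iff₀ (half_pos p)).1 k, n4 (w - y), le_max_left (N (w - y)) (N (w + y))])⟩
  obtain ⟨a, ha⟩ := x ![0] ![1] (by simpa using ⟨1, by simp⟩) (by simp [n0]) (by simp [n0])
  replace ha : N a = 1 := by simpa using ha 0
  have := n2 a a
  have u : N (-a - a) = N (a + a) := by rw [← n1]; congr 1; ring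
  obtain ⟨y, hy⟩ := x ![0, a, -a] ![2, 1, 1] (fun i => by
    fin_cases i
    exacts [⟨2, by simp⟩, ⟨1, by simp⟩, ⟨1, by simp⟩])
    (by norm_num [Fin.forall_fin_succ, n0, n1, n4, ha])
    (by norm_num [Fin.forall_fin_succ, n0, n1, ha, u]; linarith)
  have y1 := n2 (y - a) (y - -a)
  rw [show y - a + (y - -a) = y + y by ring, show N (y - a) = 1 from hy 1,
    show N (y - -a) = 1 from hy 2] at y1
  choose! w w1 w2 using st
  let f : ℕ → ℤ := Nat.rec (w y (1 / 4)) fun k z => w z (1 / 4 / 2 ^ (k + 1))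
  have f1 : ∀ k, N (f k + f k) ≤ 1 / 2 / 2 / 2 ^ k := fun k => by
    cases k <;> exact (w1 _ _ (by positivity)).trans_eq (by push_cast; ring)
  have z : ∀ (n : ℤ) x, (τ ^ n) (ι x) = ι ((σ ^ n) x) := fun n x => by
    induction n using Int.induction_on generalizing x with
    | zero => rfl
    | succ n k => simp only [zpow_add_one, IsometryEquiv.mul_apply, e, k]
    | pred n k =>
      rw [zpow_sub_one, zpow_sub_one, IsometryEquiv.mul_apply, IsometryEquiv.mul_apply, ← k]
      exact congrArg _ (τ.injective (by simp [e]))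
  have t : ∀ u (m n : ℤ), dist ((τ ^ m) u) ((τ ^ n) u) = N (m - n) := fun u m n =>
    d.induction_on u (isClosed_eq (by fun_prop) continuous_const) fun x => by
      rw [z, z, i.dist_eq, s]
  have f2 : ∀ u k, dist ((τ ^ f k) u) ((τ ^ f (k + 1)) u) ≤ 1 / 2 / 2 / 2 ^ k := fun u k => by
    rw [dist_comm, t]
    refine (w2 _ _ (by positivity)).trans ?_
    push_cast
    linarith [f1 k, show (1 : ℝ) / 4 / 2 ^ (k + 1) = 1 / 2 / 2 / 2 ^ k / 2 by ring]
  choose g hg using fun u => cauchySeq_tendsto_of_complete (cauchySeq_of_le_geometric_two (f2 u))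
  have g1 : Isometry g := .of_dist_eq fun u v => tendsto_nhds_unique ((hg u).dist (hg v))
    (by simp [IsometryEquiv.dist_eq])
  have g2 : Involutive g := fun u => tendsto_nhds_unique (hg (g u)) (tendsto_iff_dist_tendsto_zero.2
    (squeeze_zero (fun _ => dist_nonneg) (fun k => (dist_triangle _ ((τ ^ f k) ((τ ^ f k) u)) _).trans
      (add_le_add (IsometryEquiv.dist_eq _ _ _).le (le_trans (by
        simpa [zpow_add] using (t u (f k + f k) 0).le) (f1 k)))) (by
      simpa using ((tendsto_const_nhds (x := g u)).dist (hg u)).add ((tendsto_pow_atTop_atTop_of_one_lt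
        one_lt_two).const_div_atTop (1 / 2 / 2 : ℝ)))))
  refine ⟨⟨g2.toPerm, g1⟩, mem_closure_of_tendsto (tendsto_pi_nhds.2 hg)
    (.of_forall fun k => ⟨f k, rfl⟩), fun k => ?_, IsometryEquiv.ext g2⟩
  have a := dist_le_of_le_geometric_two_of_tendsto₀ (f2 (ι o)) (hg _)
  have b := n2 (f 0) (-(f 0 - y))
  rw [show g (ι o) = (τ ^ (0 : ℤ)) (ι o) from DFunLike.congr_fun k _, t, sub_zero] at a
  rw [n1, show f 0 + -(f 0 - y) = y - 0 by ring, show N (y - 0) = 2 from hy 0] at b
  have := w2 y (1 / 4) (by norm_num)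
  push_cast at this
  linarith [show N (f 0 - y) ≤ _ from this]

end Pool.Agent.Results.MP_30c7ca_gt.Involution
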